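import Pool.Agent.MP_96f5a9_co.h16.Cubic
import Mathlib.Algebra.Order.Chebyshev

-- ======== part 0: formerly Pool.Agent.MP_96f5a9_co.h16.Final
section MrgPart0

/-!
From a numerical semigroup to the order ideal of shortest factorizations of its Apery elements.
-/

set_option autoImplicit false

namespace Pool.Agent.MP_96f5a9_co.H16

open Finset Function H51

section Ideal

variable {ι : Type} [Fintype ι] [LinearOrder ι]

/-- The monomial order: weight, then degree, then lexicographic. -/
def key (g x : ι → ℕ) : ℕ ×ₗ ℕ ×ₗ Lex (ι → ℕ) := toLex (wt g x, toLex (dg x, toLex x))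

omit [LinearOrder ι] in
lemma key_add (g x y : ι → ℕ) : key g (x + y) = key g x + key g y := by
  have : dg (x + y) = dg x + dg y := by simp [dg, sum_add_distrib]
  unfold key
  rw [wt_add, this]
  rfl

lemma exists_ideal (g : ι → ℕ) (m : ℕ) (hm : 0 < m) :
    ∃ T : Finset (ι → ℕ), (∀ x ∈ T, ∀ y, y ≤ x → y ∈ T) ∧
      (∀ x ∈ T, ∀ y ∈ T, wt g x ≡ wt g y [MOD m] → x = y) ∧
      (∀ y, ∃ x ∈ T, wt g x ≡ wt g y [MOD m] ∧ wt g x ≤ wt g y) ∧
      ∀ x ∈ T, ∀ y, wt g x = wt g y → dg x ≤ dg y := by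
  let A : Set (ι → ℕ) := {x | ∀ y, wt g y ≡ wt g x [MOD m] → key g x ≤ key g y}
  have hinj : ∀ x ∈ A, ∀ y ∈ A, wt g x ≡ wt g y [MOD m] → x = y := by
    intro x hx y hy h
    have h1 := le_antisymm (hx y h.symm) (hy x h)
    have h2 := congrArg (fun p => ofLex (ofLex (ofLex p).2).2) h1
    simpa [key] using h2
  have hfin : A.Finite := by
    refine Set.Finite.of_injOn (f := fun x => wt g x % m) (t := Set.Iio m) ?_ ?_ (Set.finite_Iio m)
    · intro x _
      exact Nat.mod_lt _ hm
    · intro x hx y hy h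
      exact hinj x hx y hy h
  refine ⟨hfin.toFinset, ?_, ?_, ?_, ?_⟩
  · intro x hx y hyx
    rw [Set.Finite.mem_toFinset] at hx ⊢
    obtain ⟨u, rfl⟩ : ∃ u, x = y + u := ⟨x - y, (add_tsub_cancel_of_le hyx).symm⟩
    intro z hz
    have h1 := hx (z + u) (by rw [wt_add, wt_add]; exact hz.add_right _)
    rw [key_add, key_add] at h1
    exact le_of_add_le_add_right h1
  · intro x hx y hy
    rw [Set.Finite.mem_toFinset] at hx hy
    exact hinj x hx y hy
  · intro y
    let B : Set (ι → ℕ) := {z | wt g z ≡ wt g y [MOD m]}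
    have hB : B.Nonempty := ⟨y, Nat.ModEq.refl _⟩
    have hx : argminOn (key g) B hB ∈ B := argminOn_mem _ _ _
    refine ⟨argminOn (key g) B hB, ?_, hx, ?_⟩
    · rw [Set.Finite.mem_toFinset]
      intro z hz
      exact argminOn_le (key g) B (a := z) (hz.trans hx)
    · have h1 := argminOn_le (key g) B (a := y) (Nat.ModEq.refl _)
      unfold key at h1
      rw [Prod.Lex.toLex_le_toLex] at h1
      rcases h1 with h1 | h1
      · exact h1.le
      · exact h1.1.le
  · intro x hx y h
    rw [Set.Finite.mem_toFinset] at hx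
    have h1 := hx y (by rw [h])
    unfold key at h1
    rw [Prod.Lex.toLex_le_toLex] at h1
    rcases h1 with h1 | ⟨-, h1⟩
    · exact absurd h h1.ne
    rw [Prod.Lex.toLex_le_toLex] at h1
    rcases h1 with h1 | h1
    · exact h1.le
    · exact h1.1.le

end Ideal

lemma dg_peel {ι : Type} [Fintype ι] [DecidableEq ι] (g : ι → ℕ) {z : ι → ℕ} {D : ℕ}
    (h : dg z = D + 1) : ∃ i y, dg y = D ∧ wt g z = wt g y + g i := by
  obtain ⟨i, -, hi⟩ : ∃ i ∈ univ, z i ≠ 0 :=
    exists_ne_zero_of_sum_ne_zero (by unfold dg at h; omega)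
  have h1 := dg_sub (Nat.pos_of_ne_zero hi)
  exact ⟨i, z - ee i, by omega, by rw [← wt_ee, sub_add_ee (Nat.pos_of_ne_zero hi)]⟩

lemma cubic_arith {t e m : ℕ} (hm : 0 < m) (h1 : t + e ≤ m) (h2 : 172 * m ≤ e ^ 3) :
    t < (e / 3 + 1).choose 3 := by
  obtain ⟨k, hk⟩ : ∃ k, e / 3 = k + 1 := by
    refine ⟨e / 3 - 1, ?_⟩
    by_contra c
    have : e ^ 3 ≤ 2 ^ 3 := Nat.pow_le_pow_left (by omega) _
    omega
  have h3 : (k + 1 + 1).choose 3 * 6 = (k + 2) * (k + 1) * k := by
    have := Nat.descFactorial_eq_factorial_mul_choose (k + 1 + 1) 3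
    simp only [Nat.descFactorial_succ, Nat.descFactorial_zero, Nat.factorial] at this
    rw [show k + 1 + 1 - 2 = k by omega, show k + 1 + 1 - 1 = k + 1 by omega, Nat.sub_zero] at this
    linarith
  rw [hk]
  by_contra c
  have h4 : 172 * ((k + 2) * (k + 1) * k + 6 * e) ≤ 6 * e ^ 3 := by omega
  have h5 : e = 3 * k + 3 ∨ e = 3 * k + 4 ∨ e = 3 * k + 5 := by omega
  zify at h4
  have h6 : (0 : ℤ) ≤ k := Int.natCast_nonneg k
  have h7 := mul_nonneg h6 (sq_nonneg ((k : ℤ) - 15))
  rcases h5 with rfl | rfl | rfl <;> push_cast at h4 <;> nlinarith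

open Classical in
/-- Wilf's inequality when few Apery elements have shortest factorization length three. -/
theorem wilf_cubic (S : AddSubmonoid ℕ) (F m t : ℕ) (hF : ∀ x, F < x → x ∈ S) (hm0 : 0 < m)
    (hmS : m ∈ S) (hmin : ∀ x ∈ S, x ≠ 0 → m ≤ x)
    (ht : t = Set.ncard {w | (∀ s ∈ S, s + m ≠ w) ∧
      (∃ a ∈ gens S, ∃ b ∈ gens S, ∃ c ∈ gens S, a + b + c = w) ∧
      ∀ a ∈ gens S, ∀ b ∈ gens S, a + b ≠ w})
    (h : t = 0 ∨ t < ((gens S).ncard / 3 + 1).choose 3 ∨ 172 * m ≤ (gens S).ncard ^ 3) :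
    F + 1 ≤ (gens S).ncard * ((range (F + 1)).filter (· ∈ S)).card := by
  have hfin := gens_finite S F hF
  have hmg : m ∈ gens S := by
    refine ⟨hmS, hm0.ne', fun a ha b hb hab => ?_⟩
    by_contra hne
    push Not at hne
    have := hmin a ha hne.1
    have := hmin b hb hne.2
    omega
  let G : Finset ℕ := hfin.toFinset.erase m
  have hG : ∀ x, x ∈ G ↔ x ≠ m ∧ x ∈ gens S := fun x => by simp [G]
  have he : (gens S).ncard = Fintype.card G + 1 := by
    rw [Set.ncard_eq_toFinset_card _ hfin, Fintype.card_coe, card_erase_add_one]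
    simpa using hmg
  let g : G → ℕ := fun i => i.1
  have hg : ∀ i, g i ∈ gens S := fun i => ((hG _).1 i.2).2
  have hmul : ∀ k, k * m ∈ S := fun k => by
    rw [← smul_eq_mul]
    exact S.nsmul_mem hmS _
  have hwt : ∀ x, wt g x ∈ S := fun x =>
    S.sum_mem fun i _ => by
      rw [← smul_eq_mul]
      exact S.nsmul_mem (hg i).1 _
  have hw0 : wt g 0 = 0 := by simp [wt]
  have hw1 : ∀ i, wt g (ee i) = g i := fun i => by rw [← zero_add (ee i), wt_ee, hw0, zero_add]
  have hd1 : ∀ i : G, dg (ee i) = 1 := fun i => by simp [dg, ee]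
  have hrepr : ∀ s ∈ S, ∃ y t, s = wt g y + t * m := by
    intro s hs
    obtain ⟨l, hl, rfl⟩ := exists_fact S s hs
    clear hs
    induction l using Multiset.induction_on with
    | empty => exact ⟨0, 0, by simp [wt]⟩
    | cons a l ih =>
      obtain ⟨y, t, h⟩ := ih fun b hb => hl b (Multiset.mem_cons_of_mem hb)
      have ha := hl a (Multiset.mem_cons_self _ _)
      rw [Multiset.sum_cons, h]
      by_cases ham : a = m
      · exact ⟨y, t + 1, by rw [ham]; ring⟩
      · refine ⟨y + ee ⟨a, (hG a).2 ⟨ham, ha⟩⟩, t, ?_⟩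
        rw [wt_ee]
        simp only [g]
        ring
  obtain ⟨T, hT, hinj, hsurj, hdeg⟩ := exists_ideal g m hm0
  have hcard : T.card = m := by
    have h1 : T.image (fun x => wt g x % m) = range m := by
      ext r
      simp only [mem_image, mem_range]
      constructor
      · rintro ⟨x, -, rfl⟩
        exact Nat.mod_lt _ hm0
      · intro hr
        have h2 : F + 1 ≤ (F + 1) * m := Nat.le_mul_of_pos_right _ hm0
        obtain ⟨y, t, h⟩ := hrepr (r + (F + 1) * m) (hF _ (by omega))
        obtain ⟨x, hx, h3, -⟩ := hsurj y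
        refine ⟨x, hx, ?_⟩
        have h4 := congrArg (· % m) h
        simp only [Nat.add_mul_mod_self_right, Nat.mod_eq_of_lt hr] at h4
        rw [h4]
        exact h3
    rw [← card_image_of_injOn (f := fun x => wt g x % m) fun x hx y hy h => hinj x hx y hy h, h1,
      card_range]
  have hAp : ∀ x ∈ T, ∀ s ∈ S, s + m ≠ wt g x := by
    intro x hx s hs hne
    obtain ⟨y, t, h⟩ := hrepr s hs
    obtain ⟨z, hz, h3, h4⟩ := hsurj y
    have h5 : wt g x = wt g y + (t + 1) * m := by rw [add_mul]; omega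
    have h6 : wt g z ≡ wt g x [MOD m] := by
      rw [h5]
      unfold Nat.ModEq at h3 ⊢
      rw [Nat.add_mul_mod_self_right]
      exact h3
    have h7 := hinj z hz x hx h6
    rw [h7] at h4
    omega
  have hM : ∀ x ∈ T, wt g x ≤ F + m := fun x hx => by
    by_contra hne
    exact hAp x hx (wt g x - m) (hF _ (by omega)) (by omega)
  have ht3 : (T.filter fun z => dg z = 3).card ≤ t := by
    rw [ht, ← Set.ncard_coe_finset]
    refine Set.ncard_le_ncard_of_injOn (wt g) (fun z hz => ?_) (fun z hz y hy e => ?_) ?_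
    · obtain ⟨z1, z2⟩ := mem_filter.1 (mem_coe.1 hz)
      refine ⟨hAp z z1, ?_, fun a ha b hb e => ?_⟩
      · obtain ⟨i, y, y1, y2⟩ := dg_peel g z2
        obtain ⟨j, u, u1, u2⟩ := dg_peel g y1
        obtain ⟨k, v, v1, v2⟩ := dg_peel g u1
        obtain rfl : v = 0 := funext fun l => sum_eq_zero_iff.1 v1 l (mem_univ l)
        exact ⟨_, hg i, _, hg j, _, hg k, by omega⟩
      · have a1 : a ≠ m := fun c => hAp z z1 b hb.1 (by omega)
        have b1 : b ≠ m := fun c => hAp z z1 a ha.1 (by omega)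
        have := hdeg z z1 (ee ⟨a, (hG a).2 ⟨a1, ha⟩⟩ + ee ⟨b, (hG b).2 ⟨b1, hb⟩⟩)
          (by rw [wt_ee, hw1]; exact e.symm)
        rw [dg_add_ee, hd1] at this
        omega
    · exact hinj z (mem_filter.1 (mem_coe.1 hz)).1 y (mem_filter.1 (mem_coe.1 hy)).1 (by rw [e])
    · refine (Set.finite_Iic (F + m)).subset fun w hw => ?_
      by_contra c
      simp only [Set.mem_Iic, not_le] at c
      exact hw.1 (w - m) (hF _ (by omega)) (by omega)
  have hte : (T.filter fun z => dg z = 3).card + (gens S).ncard ≤ m := by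
    rw [← hcard, ← card_filter_add_card_filter_not (s := T) fun z => dg z = 3, he, Fintype.card_coe,
      ← card_insert_of_notMem (a := 0) fun c => ((hG 0).1 c).2.2.1 rfl]
    refine Nat.add_le_add_left ((card_le_card fun a ha => ?_).trans (card_image_le (f := wt g))) _
    rcases mem_insert.1 ha with rfl | ha
    · obtain ⟨x, hx, -⟩ := hsurj 0
      exact mem_image.2 ⟨0, mem_filter.2 ⟨hT x hx 0 bot_le, by simp [dg]⟩, hw0⟩
    obtain ⟨x, hx, h1, h2⟩ := hsurj (ee ⟨a, ha⟩)
    obtain ⟨k, hk⟩ := (Nat.modEq_iff_dvd' h2).1 h1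
    have h3 : wt g x = wt g (ee ⟨a, ha⟩) := by
      rw [show wt g (ee ⟨a, ha⟩) = a from hw1 _] at h2 hk ⊢
      obtain ⟨a1, a2⟩ := (hG a).1 ha
      rcases k with _ | k
      · omega
      · rw [mul_add, mul_comm m k] at hk
        have := a2.2.2 (wt g x + k * m) (S.add_mem (hwt x) (hmul k)) m hmS (by omega)
        omega
    have h4 := hdeg x hx _ h3
    rw [hd1] at h4
    exact mem_image.2 ⟨x, mem_filter.2 ⟨hx, by omega⟩, by rw [h3, hw1]⟩
  have hmain := wilf_ideal g T m F hm0 (fun i => hmin _ (hg i).1 (hg i).2.1) hT hcard hinj hM (by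
    rw [← he]
    rcases h with h | h | h
    · exact Or.inl (by omega)
    · exact Or.inr (ht3.trans_lt h)
    · exact Or.inr (cubic_arith hm0 hte h))
  rw [← he] at hmain
  refine hmain.trans (Nat.mul_le_mul_left _ ?_)
  have h1 : ∑ x ∈ T, (F + m - wt g x) / m =
      (T.sigma fun x => range ((F + m - wt g x) / m)).card := by simp [card_sigma]
  rw [h1]
  refine card_le_card_of_injOn (fun p => wt g p.1 + p.2 * m) ?_ ?_
  · rintro ⟨x, t⟩ hp
    simp only [coe_sigma, Set.mem_sigma_iff, mem_coe, mem_range] at hp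
    simp only [coe_filter, mem_range, Set.mem_ofPred_eq]
    refine ⟨?_, S.add_mem (hwt x) (hmul _)⟩
    have h2 : (t + 1) * m ≤ F + m - wt g x := (Nat.le_div_iff_mul_le hm0).1 hp.2
    have := hM x hp.1
    rw [add_mul] at h2
    omega
  · rintro ⟨x, t⟩ hp ⟨y, t'⟩ hp' h
    simp only [coe_sigma, Set.mem_sigma_iff, mem_coe, mem_range] at hp hp'
    simp only at h
    have h2 : x = y := by
      refine hinj x hp.1 y hp'.1 ?_
      have h3 := congrArg (· % m) h
      simp only [Nat.add_mul_mod_self_right] at h3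
      exact h3
    subst h2
    have h3 : t = t' := Nat.eq_of_mul_eq_mul_right hm0 (by omega)
    subst h3
    rfl

end Pool.Agent.MP_96f5a9_co.H16

end MrgPart0

-- ======== part 1: formerly Pool.Agent.MP_96f5a9_co.h93.Soft
section MrgPart1

/-!
Soft packing modulo `m` and averaging inside the deep part of an order ideal.
-/

set_option autoImplicit false

namespace Pool.Agent.MP_96f5a9_co.H93

open Finset Function H51 H16

variable {ι : Type} [Fintype ι] [DecidableEq ι]

omit [Fintype ι] in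
lemma add_single_eq (t : ι → ℕ) (i : ι) (l : ℕ) : t + Pi.single i l = update t i (t i + l) := by
  funext j
  by_cases hj : j = i
  · subst hj; simp
  · simp [hj]

lemma ht_lt_of_dead {T : Finset (ι → ℕ)} (hT : ∀ x ∈ T, ∀ y, y ≤ x → y ∈ T) {t : ι → ℕ}
    (ht' : t ∈ T) {i : ι} {l : ℕ} (h : t + Pi.single i l ∉ T) : ht T i t < t i + l := by
  by_contra c
  exact h (by rw [add_single_eq]; exact update_mem hT i ht' (not_lt.1 c))

lemma le_ht_of_live {T : Finset (ι → ℕ)} {t : ι → ℕ} {i : ι} {l : ℕ}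
    (h : t + Pi.single i l ∈ T) : t i + l ≤ ht T i t := by
  rw [add_single_eq] at h
  have := le_ht i h
  rwa [ht_update, update_self] at this

lemma top_eq_of_dead {T : Finset (ι → ℕ)} (hT : ∀ x ∈ T, ∀ y, y ≤ x → y ∈ T) {t : ι → ℕ}
    (ht' : t ∈ T) {i : ι} (h : t + ee i ∉ T) : top T i t = t := by
  have h1 := ht_lt_of_dead hT ht' (l := 1) h
  have h2 := le_ht i ht'
  unfold top
  rw [show ht T i t = t i by omega, update_eq_self]

/-- Cauchy-Schwarz over the fibres of a map to `ZMod m`. -/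
lemma sq_le_collisions {α : Type} (U : Finset α) (m : ℕ) (hm : 0 < m) (φ : α → ZMod m) :
    U.card ^ 2 ≤ m * ((U ×ˢ U).filter fun q => φ q.1 = φ q.2).card := by
  classical
  have : NeZero m := ⟨hm.ne'⟩
  have h1 : U.card = ∑ ρ : ZMod m, (U.filter fun u => φ u = ρ).card :=
    card_eq_sum_card_fiberwise (f := φ) fun _ _ => by simp
  have h2 : ((U ×ˢ U).filter fun q => φ q.1 = φ q.2).card =
      ∑ ρ : ZMod m, (U.filter fun u => φ u = ρ).card ^ 2 := by
    rw [card_eq_sum_card_fiberwise (f := fun q : α × α => φ q.1) (t := univ) fun _ _ => by simp]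
    refine sum_congr rfl fun ρ _ => ?_
    rw [pow_two, ← card_product]
    congr 1
    ext q
    simp only [mem_filter, mem_product]
    constructor
    · rintro ⟨⟨⟨a, b⟩, c⟩, d⟩
      exact ⟨⟨a, d⟩, b, c ▸ d⟩
    · rintro ⟨⟨a, b⟩, c, d⟩
      exact ⟨⟨⟨a, c⟩, b.trans d.symm⟩, b⟩
  have h3 := sq_sum_le_card_mul_sum_sq (s := (univ : Finset (ZMod m)))
    (f := fun ρ => (U.filter fun u => φ u = ρ).card)
  rw [← h1, ← h2] at h3
  simpa using h3

/-- Soft packing. -/
lemma soft_packing (g : ι → ℕ) (T X : Finset (ι → ℕ)) (m : ℕ) (hm : 0 < m)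
    (hinj : ∀ x ∈ T, ∀ y ∈ T, wt g x ≡ wt g y [MOD m] → x = y) (l : ι → ℕ) (hX : X ⊆ T) :
    (∑ j, (X.filter fun t => t j < l j).card) ^ 2 ≤
      m * (∑ j, (X.filter fun t => t j < l j).card + 2 * (Fintype.card ι *
        ∑ k, (X.filter fun t => t + Pi.single k (l k) ∉ T).card)) := by
  classical
  let U : Finset (ι × (ι → ℕ)) := (univ ×ˢ X).filter fun u => u.2 u.1 < l u.1
  let D : Finset (ι × (ι → ℕ)) := (univ ×ˢ X).filter fun u => u.2 + Pi.single u.1 (l u.1) ∉ T
  have hU : U.card = ∑ j, (X.filter fun t => t j < l j).card := by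
    simp only [U, card_filter, sum_product]
  have hD : D.card = ∑ k, (X.filter fun t => t + Pi.single k (l k) ∉ T).card := by
    simp only [D, card_filter, sum_product]
  rw [← hU, ← hD]
  let φ : ι × (ι → ℕ) → ZMod m := fun u => (wt g u.2 : ZMod m) - (l u.1 * g u.1 : ℕ)
  refine (sq_le_collisions U m hm φ).trans (Nat.mul_le_mul_left _ ?_)
  set C := (U ×ˢ U).filter fun q => φ q.1 = φ q.2 with hC
  have hsame : ∀ q ∈ C, ∀ q' ∈ C, φ q.1 = φ q'.1 → (q.1.1 = q'.1.1 → q.1 = q'.1) ∧
      (q.2.1 = q'.2.1 → q.2 = q'.2) := by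
    have key : ∀ u ∈ U, ∀ u' ∈ U, φ u = φ u' → u.1 = u'.1 → u = u' := by
      rintro ⟨j, t⟩ hu ⟨j', t'⟩ hu' h e
      simp only at e
      subst e
      simp only [U, mem_filter, mem_product] at hu hu'
      have : t = t' := by
        refine hinj _ (hX hu.1.2) _ (hX hu'.1.2) ?_
        rw [← ZMod.natCast_eq_natCast_iff]
        simp only [φ] at h
        linear_combination h
      rw [this]
    intro q hq q' hq' h
    simp only [hC, mem_filter, mem_product] at hq hq'
    exact ⟨key _ hq.1.1 _ hq'.1.1 h, key _ hq.1.2 _ hq'.1.2 (by rw [← hq.2, ← hq'.2, h])⟩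
  let C0 := C.filter fun q => q.1 = q.2
  let C1 := C.filter fun q => q.1.2 + Pi.single q.2.1 (l q.2.1) ∉ T
  let C2 := C.filter fun q => q.2.2 + Pi.single q.1.1 (l q.1.1) ∉ T
  have hsub : C ⊆ C0 ∪ (C1 ∪ C2) := by
    rintro ⟨⟨j, t⟩, ⟨k, t'⟩⟩ hq
    simp only [C0, C1, C2, mem_union, mem_filter (s := C)]
    by_contra c
    push Not at c
    obtain ⟨c0, c1, c2⟩ := c
    have h1 := c1 hq
    have h2 := c2 hq
    have h0 := c0 hq
    simp only [hC, U, mem_filter, mem_product] at hq
    have h3 : t + Pi.single k (l k) = t' + Pi.single j (l j) := by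
      refine hinj _ h1 _ h2 ?_
      rw [← ZMod.natCast_eq_natCast_iff, wt_add, wt_add, wt_single, wt_single]
      have := hq.2
      simp only [φ] at this
      push_cast at this ⊢
      linear_combination this
    by_cases e : j = k
    · subst e
      exact h0 (by rw [add_right_cancel h3])
    · have h4 := congrFun h3 j
      have h5 := hq.1.1.2
      simp [Pi.single_eq_of_ne e] at h4
      omega
  have b0 : C0.card ≤ U.card := by
    refine card_le_card_of_injOn (fun q => q.1) (fun q hq => ?_) fun q hq q' hq' e => ?_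
    · simp only [C0, hC, coe_filter, mem_filter, mem_product, Set.mem_ofPred_eq] at hq
      exact hq.1.1.1
    · simp only [C0, coe_filter, Set.mem_ofPred_eq] at hq hq'
      exact Prod.ext e (by rw [← hq.2, ← hq'.2]; exact e)
  have b1 : C1.card ≤ Fintype.card ι * D.card := by
    rw [← card_univ, ← card_product]
    refine card_le_card_of_injOn (fun q => (q.1.1, (q.2.1, q.1.2))) (fun q hq => ?_)
      fun q hq q' hq' e => ?_
    · simp only [C1, hC, U, coe_filter, mem_filter, mem_product, Set.mem_ofPred_eq] at hq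
      simp only [D, coe_product, Set.mem_prod, mem_coe, mem_filter, mem_product, mem_univ, true_and]
      exact ⟨hq.1.1.1.1.2, hq.2⟩
    · simp only [C1, coe_filter, Set.mem_ofPred_eq] at hq hq'
      simp only [Prod.mk.injEq] at e
      have e1 : q.1 = q'.1 := Prod.ext e.1 e.2.2
      exact Prod.ext e1 ((hsame q hq.1 q' hq'.1 (by rw [e1])).2 e.2.1)
  have b2 : C2.card ≤ Fintype.card ι * D.card := by
    rw [← card_univ, ← card_product]
    refine card_le_card_of_injOn (fun q => (q.2.1, (q.1.1, q.2.2))) (fun q hq => ?_)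
      fun q hq q' hq' e => ?_
    · simp only [C2, hC, U, coe_filter, mem_filter, mem_product, Set.mem_ofPred_eq] at hq
      simp only [D, coe_product, Set.mem_prod, mem_coe, mem_filter, mem_product, mem_univ, true_and]
      exact ⟨hq.1.1.2.1.2, hq.2⟩
    · simp only [C2, coe_filter, Set.mem_ofPred_eq] at hq hq'
      simp only [Prod.mk.injEq] at e
      have e1 : q.2 = q'.2 := Prod.ext e.1 e.2.2
      have a := (mem_filter.1 hq.1).2
      have a' := (mem_filter.1 hq'.1).2
      exact Prod.ext ((hsame q hq.1 q' hq'.1 (by rw [a, a', e1])).1 e.2.1) e1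
  have := (card_le_card hsub).trans ((card_union_le _ _).trans
    (Nat.add_le_add_left (card_union_le _ _) _))
  omega

/-- The gap at the end of the `i`-line through `t`. -/
def gp (g : ι → ℕ) (T : Finset (ι → ℕ)) (M : ℕ) (i : ι) (t : ι → ℕ) : ℕ := M - wt g (top T i t)

/-- The points of depth at least `x`. -/
def deep (g : ι → ℕ) (T : Finset (ι → ℕ)) (M x : ℕ) : Finset (ι → ℕ) :=
  T.filter fun t => x ≤ M - wt g t

variable {g : ι → ℕ} {T : Finset (ι → ℕ)} {m M : ℕ}

omit [DecidableEq ι] in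
lemma wt_mono (g : ι → ℕ) {x y : ι → ℕ} (h : y ≤ x) : wt g y ≤ wt g x :=
  sum_le_sum fun i _ => Nat.mul_le_mul_right _ (h i)

omit [DecidableEq ι] in
lemma deep_ideal (hT : ∀ x ∈ T, ∀ y, y ≤ x → y ∈ T) (x : ℕ) :
    ∀ a ∈ deep g T M x, ∀ b, b ≤ a → b ∈ deep g T M x := by
  intro a ha b hb
  simp only [deep, mem_filter] at ha ⊢
  have := wt_mono g hb
  exact ⟨hT a ha.1 b hb, by omega⟩

lemma gp_add (hM : ∀ x ∈ T, wt g x ≤ M) {t : ι → ℕ} (ht' : t ∈ T) (i : ι) :
    gp g T M i t + ht T i t * g i = M - wt g t + t i * g i := by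
  have h1 := wt_top g T i t
  have h2 := hM _ (top_mem i ht')
  have h3 := hM _ ht'
  unfold gp
  omega

/-- A deep point that is dead after a step of half its depth leaves a large gap. -/
lemma dead_cost (hT : ∀ x ∈ T, ∀ y, y ≤ x → y ∈ T) (hM : ∀ x ∈ T, wt g x ≤ M) {x y : ℕ}
    (hxy : 2 * y ≤ x) (k : ι) :
    ((deep g T M x).filter fun t => t + Pi.single k (y / g k + 1) ∉ T).card * (y / m) ≤
      ∑ t ∈ T, gp g T M k t / m := by
  rw [← smul_eq_mul, ← sum_const]
  refine (sum_le_sum fun t ht' => ?_).trans (sum_le_sum_of_subset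
    ((filter_subset _ _).trans (filter_subset _ _)))
  simp only [deep, mem_filter] at ht'
  refine Nat.div_le_div_right ?_
  have h1 := ht_lt_of_dead hT ht'.1.1 ht'.2
  have h2 := gp_add hM ht'.1.1 k
  have h3 : ht T k t * g k ≤ (t k + y / g k) * g k := Nat.mul_le_mul_right _ (by omega)
  have h4 := Nat.div_mul_le_self y (g k)
  rw [add_mul] at h3
  omega

/-- The crude loss bound. -/
lemma crude (hm : 0 < m) (hT : ∀ x ∈ T, ∀ y, y ≤ x → y ∈ T) (i : ι) :
    ∑ t ∈ T, (M - wt g t) % m + m * ∑ t ∈ T, gp g T M i t / m ≤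
      ∑ t ∈ T, gp g T M i t + m * (T.filter fun t => t + ee i ∈ T).card := by
  rw [card_filter, mul_sum, mul_sum, ← sum_add_distrib, ← sum_add_distrib]
  refine sum_le_sum fun t ht' => ?_
  have h1 := Nat.div_add_mod (gp g T M i t) m
  split_ifs with c
  · have := Nat.mod_lt (M - wt g t) hm
    omega
  · have h2 : gp g T M i t = M - wt g t := by rw [gp, top_eq_of_dead hT ht' c]
    rw [h2] at h1 ⊢
    omega

lemma gp_le (hm : 0 < m) (hcard : T.card = m) (i : ι) :
    ∑ t ∈ T, gp g T M i t ≤ m * ∑ t ∈ T, gp g T M i t / m + m * m := by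
  have : m * m = ∑ _t ∈ T, m := by simp [hcard]
  rw [this, mul_sum, ← sum_add_distrib]
  refine sum_le_sum fun t _ => ?_
  have h1 := Nat.div_add_mod (gp g T M i t) m
  have := Nat.mod_lt (gp g T M i t) hm
  omega

/-- Averaging along `i`-lines inside the deep part. -/
lemma tail_one (hT : ∀ x ∈ T, ∀ y, y ≤ x → y ∈ T) (hM : ∀ x ∈ T, wt g x ≤ M) (x : ℕ) (i : ι) :
    ∑ t ∈ deep g T M x, (M - wt g t) ≤ ∑ t ∈ T, gp g T M i t +
      (deep g T M x).card * (x + g i) + ∑ t ∈ deep g T M x, t i * g i := by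
  set X := deep g T M x with hX
  have hXT : X ⊆ T := filter_subset _ _
  have hXM : ∀ t ∈ X, wt g t ≤ M := fun t h => hM t (hXT h)
  have h1 : ∑ t ∈ X, (gp g X M i t + ht X i t * g i) = ∑ t ∈ X, (M - wt g t + t i * g i) :=
    sum_congr rfl fun t h => gp_add hXM h i
  rw [sum_add_distrib, sum_add_distrib, ← sum_mul, ← sum_mul, sum_ht (deep_ideal hT x) i] at h1
  have h2 : ∑ t ∈ X, gp g X M i t ≤ ∑ t ∈ X, (gp g T M i t + (x + g i)) := by
    refine sum_le_sum fun t h => ?_
    have a1 := top_mem i h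
    by_cases c : top X i t + ee i ∈ T
    · have a2 : top X i t + ee i ∉ X := fun d => by
        have := le_ht_of_live (l := 1) d
        simp only [top, update_self, ht_update] at this
        omega
      have a3 : ¬ x ≤ M - wt g (top X i t + ee i) := fun d => a2 (mem_filter.2 ⟨c, d⟩)
      rw [wt_ee] at a3
      unfold gp
      omega
    · have a2 := top_eq_of_dead hT (hXT a1) c
      have a3 : top T i (top X i t) = top T i t := by
        simp only [top, ht_update, update_idem]
      unfold gp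
      rw [← a3, a2]
      omega
  rw [sum_add_distrib, sum_const, smul_eq_mul] at h2
  have h3 : ∑ t ∈ X, gp g T M i t ≤ ∑ t ∈ T, gp g T M i t := sum_le_sum_of_subset hXT
  rw [← sum_mul]
  nlinarith

lemma tail (hT : ∀ x ∈ T, ∀ y, y ≤ x → y ∈ T) (hM : ∀ x ∈ T, wt g x ≤ M) (x s : ℕ)
    (hs : Fintype.card ι ≤ 2 * (univ.filter fun i => g i ≤ s).card) :
    Fintype.card ι * ∑ t ∈ deep g T M x, (M - wt g t) ≤ 2 * ∑ i, ∑ t ∈ T, gp g T M i t +
      Fintype.card ι * ((deep g T M x).card * (x + s)) + 2 * (M * (deep g T M x).card) := by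
  set I := univ.filter fun i => g i ≤ s with hI
  set X := deep g T M x with hX
  set R := ∑ t ∈ X, (M - wt g t)
  set c := X.card * (x + s)
  have h1 : ∑ _i ∈ I, (R - c) ≤ ∑ i ∈ I, (∑ t ∈ T, gp g T M i t + ∑ t ∈ X, t i * g i) := by
    refine sum_le_sum fun i hi => ?_
    have a1 := tail_one hT hM x i
    have a2 : X.card * (x + g i) ≤ c :=
      Nat.mul_le_mul_left _ (Nat.add_le_add_left (mem_filter.1 hi).2 _)
    rw [← hX] at a1
    omega
  rw [sum_const, smul_eq_mul, sum_add_distrib] at h1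
  have h2 : ∑ i ∈ I, ∑ t ∈ T, gp g T M i t ≤ ∑ i, ∑ t ∈ T, gp g T M i t :=
    sum_le_sum_of_subset (subset_univ _)
  have h3 : ∑ i ∈ I, ∑ t ∈ X, t i * g i ≤ M * X.card := by
    refine (sum_le_sum_of_subset (subset_univ _)).trans ?_
    rw [sum_comm, mul_comm, ← smul_eq_mul, ← sum_const]
    exact sum_le_sum fun t h => hM t (mem_filter.1 h).1
  have h4 : Fintype.card ι * (R - c) ≤ 2 * I.card * (R - c) := Nat.mul_le_mul_right _ hs
  have h5 : Fintype.card ι * R ≤ Fintype.card ι * (R - c + c) := Nat.mul_le_mul_left _ (by omega)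
  rw [mul_add] at h5
  rw [mul_assoc] at h4
  omega

/-- Points shallower than a generator are dead in its direction. -/
lemma low (hT : ∀ x ∈ T, ∀ y, y ≤ x → y ∈ T) (hM : ∀ x ∈ T, wt g x ≤ M) (x : ℕ)
    (hs : Fintype.card ι ≤ 2 * (univ.filter fun i => x ≤ g i).card) :
    Fintype.card ι * ∑ t ∈ T.filter (fun t => ¬ x ≤ M - wt g t), (M - wt g t) ≤
      2 * ∑ i, ∑ t ∈ T, gp g T M i t := by
  set I := univ.filter fun i => x ≤ g i with hI
  set R := ∑ t ∈ T.filter (fun t => ¬ x ≤ M - wt g t), (M - wt g t) with hR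
  have h1 : ∑ _i ∈ I, R ≤ ∑ i ∈ I, ∑ t ∈ T, gp g T M i t := by
    refine sum_le_sum fun i hi => le_trans (sum_le_sum fun t h => ?_)
      (sum_le_sum_of_subset (filter_subset _ _))
    obtain ⟨a1, a2⟩ := mem_filter.1 h
    have a3 : t + ee i ∉ T := fun c => by
      have := hM _ c
      have := (mem_filter.1 hi).2
      rw [wt_ee] at *
      omega
    rw [gp, top_eq_of_dead hT a1 a3]
  rw [sum_const, smul_eq_mul] at h1
  have h2 : ∑ i ∈ I, ∑ t ∈ T, gp g T M i t ≤ ∑ i, ∑ t ∈ T, gp g T M i t :=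
    sum_le_sum_of_subset (subset_univ _)
  have h4 : Fintype.card ι * R ≤ 2 * I.card * R := Nat.mul_le_mul_right _ hs
  rw [mul_assoc] at h4
  omega

/-- Many pairs have a small coordinate. -/
lemma small_coord (hg : ∀ i, 0 < g i) {X : Finset (ι → ℕ)} (hX : ∀ x ∈ X, ∀ y, y ≤ x → y ∈ X)
    (hM : ∀ x ∈ X, wt g x ≤ M) {y κ c : ℕ} (hy : 0 < y) (hκ : 0 < κ) (hc : M ≤ c * (κ * y)) :
    Fintype.card ι * X.card ≤
      κ * ∑ j, (X.filter fun t => t j < y / g j + 1).card + c * X.card := by
  have h1 : ∀ j, (X.filter fun t => t j * g j ≤ κ * y).card ≤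
      κ * (X.filter fun t => t j < y / g j + 1).card := by
    intro j
    refine card_le_mul_card_image_of_maps_to (f := fun t => update t j (t j / κ)) ?_ κ ?_
    · intro t h
      obtain ⟨a1, a2⟩ := mem_filter.1 h
      refine mem_filter.2 ⟨update_mem hX j a1 ((Nat.div_le_self _ _).trans (le_ht j a1)), ?_⟩
      rw [update_self, Nat.div_lt_iff_lt_mul hκ]
      refine Nat.lt_of_mul_lt_mul_right (a := g j) (a2.trans_lt ?_)
      have := Nat.lt_div_mul_add (a := y) (hg j)
      nlinarith
    · intro z _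
      calc _ ≤ (Ico (z j * κ) (z j * κ + κ)).card := by
            refine card_le_card_of_injOn (fun t => t j) (fun t h => ?_) fun t h t' h' e => ?_
            · simp only [coe_filter, Set.mem_ofPred_eq] at h
              have a := congrFun h.2 j
              rw [update_self] at a
              simp only [coe_Ico, Set.mem_Ico, ← a]
              exact ⟨Nat.div_mul_le_self _ _, Nat.lt_div_mul_add hκ⟩
            · simp only [coe_filter, Set.mem_ofPred_eq] at h h'
              funext i
              by_cases hi : i = j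
              · subst hi; exact e
              · have := congrFun (h.2.trans h'.2.symm) i
                simpa [update_of_ne hi] using this
        _ = κ := by simp
  have h2 : ∀ t ∈ X, Fintype.card ι ≤ (univ.filter fun j => t j * g j ≤ κ * y).card + c := by
    intro t h
    rw [← card_univ, ← card_filter_add_card_filter_not (s := univ) fun j => t j * g j ≤ κ * y]
    refine Nat.add_le_add_left (Nat.le_of_mul_le_mul_right (c := κ * y) ?_ (by positivity)) _
    refine le_trans ?_ ((hM t h).trans hc)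
    rw [← smul_eq_mul, ← sum_const]
    exact (sum_le_sum fun j hj => (not_le.1 (mem_filter.1 hj).2).le).trans
      (sum_le_sum_of_subset (subset_univ _))
  have h3 := sum_le_sum h2
  rw [sum_const, smul_eq_mul, sum_add_distrib, sum_const, smul_eq_mul] at h3
  have h4 : ∑ t ∈ X, (univ.filter fun j => t j * g j ≤ κ * y).card =
      ∑ j, (X.filter fun t => t j * g j ≤ κ * y).card := by
    simp only [card_filter]
    exact sum_comm
  have h5 := sum_le_sum fun j (_ : j ∈ (univ : Finset ι)) => h1 j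
  rw [← mul_sum] at h5
  rw [mul_comm, mul_comm c]
  omega

/-- A small generator with small gaps fills the shallow window. -/
lemma window (hT : ∀ x ∈ T, ∀ y, y ≤ x → y ∈ T) (hM : ∀ x ∈ T, wt g x ≤ M) {y : ℕ} (hy : 0 < y)
    (K : ℕ) {i : ι} (hg : 0 < g i) (hi : g i ≤ y) :
    (deep g T M y).card ≤ K * (T.filter fun t => y ≤ M - wt g t ∧ M - wt g t < 3 * y).card +
      (T.filter fun t => y ≤ gp g T M i t).card + (deep g T M (K * y)).card := by
  set W := T.filter fun t => y ≤ M - wt g t ∧ M - wt g t < 3 * y with hW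
  let B := T.filter fun t => y ≤ M - wt g t ∧ M - wt g t < K * y ∧ gp g T M i t < y
  have h1 : B.card ≤ K * W.card := by
    nth_rewrite 1 [← card_range K]
    rw [← card_product]
    refine card_le_card_of_injOn (fun t => ((M - wt g t) / y,
      t + Pi.single i (((M - wt g t) / y - 1) * y / g i))) (fun t h => ?_) fun t _ t' _ e => ?_
    · simp only [B, coe_filter, Set.mem_ofPred_eq] at h
      obtain ⟨a1, a2, a3, a4⟩ := h
      obtain ⟨b, hb⟩ : ∃ b, (M - wt g t) / y = b + 1 :=
        ⟨(M - wt g t) / y - 1, by have := Nat.div_pos a2 hy; omega⟩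
      have b1 := Nat.div_mul_le_self (M - wt g t) y
      have b2 := Nat.lt_div_mul_add (a := M - wt g t) hy
      have b3 := Nat.div_mul_le_self (b * y) (g i)
      have b4 := Nat.lt_div_mul_add (a := b * y) hg
      have b5 := gp_add hM a1 i
      have b6 := hM t a1
      rw [hb, add_mul] at b1 b2
      simp only [hW, coe_product, Set.mem_prod, mem_coe, mem_range, mem_filter]
      refine ⟨(Nat.div_lt_iff_lt_mul hy).2 a3, ?_, ?_⟩
      · rw [hb, Nat.add_sub_cancel, add_single_eq]
        refine update_mem hT i a1 (Nat.le_of_mul_le_mul_right (c := g i) ?_ hg)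
        rw [add_mul]
        omega
      · rw [hb, Nat.add_sub_cancel, wt_add, wt_single]
        omega
    · simp only [Prod.mk.injEq] at e
      have e2 := e.2
      rw [e.1] at e2
      exact add_right_cancel e2
  refine le_trans (card_le_card (t := B ∪ T.filter (fun t => y ≤ gp g T M i t) ∪
    deep g T M (K * y)) fun t h => ?_) ((card_union_le _ _).trans
      (Nat.add_le_add_right ((card_union_le _ _).trans (Nat.add_le_add_right h1 _)) _))
  simp only [B, deep, mem_union, mem_filter] at h ⊢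
  simp only [h.1, h.2, true_and]
  omega

omit [Fintype ι] [DecidableEq ι] in
lemma markov {α : Type} (T : Finset α) (f : α → ℕ) (P : α → Prop) [DecidablePred P] (y : ℕ)
    (h : ∀ t ∈ T, P t → y ≤ f t) : (T.filter P).card * y ≤ ∑ t ∈ T, f t := by
  rw [← smul_eq_mul, ← sum_const]
  exact (sum_le_sum fun t a => h t (mem_filter.1 a).1 (mem_filter.1 a).2).trans
    (sum_le_sum_of_subset (filter_subset _ _))

lemma live_le (hM : ∀ x ∈ T, wt g x ≤ M) {y : ℕ} {i : ι} (hi : y ≤ g i) :
    (T.filter fun t => t + ee i ∈ T).card ≤ (deep g T M y).card := by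
  refine card_le_card fun t h => ?_
  simp only [deep, mem_filter] at h ⊢
  have := hM _ h.2
  rw [wt_ee] at this
  exact ⟨h.1, by omega⟩

/-- If all coordinates are small, most points have at least two predecessors. -/
lemma live_ge [Nonempty ι] (hT : ∀ x ∈ T, ∀ y, y ≤ x → y ∈ T) {c : ℕ}
    (hc : ∀ t ∈ T, ∀ i, t i ≤ c) :
    2 * T.card ≤ ∑ i, (T.filter fun t => t + ee i ∈ T).card + 2 * (Fintype.card ι * (c + 1)) := by
  have h1 : ∀ i, (T.filter fun t => 0 < t i).card ≤ (T.filter fun t => t + ee i ∈ T).card := by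
    intro i
    refine card_le_card_of_injOn (fun t => t - ee i) (fun t h => ?_) fun t h t' h' e => ?_
    · simp only [coe_filter, Set.mem_ofPred_eq] at h ⊢
      exact ⟨hT t h.1 _ tsub_le_self, by rw [sub_add_ee h.2]; exact h.1⟩
    · simp only [coe_filter, Set.mem_ofPred_eq] at h h'
      rw [← sub_add_ee h.2, ← sub_add_ee h'.2]
      exact congrArg (· + ee i) e
  have h2 := sum_le_sum fun i (_ : i ∈ (univ : Finset ι)) => h1 i
  have h3 : ∑ t ∈ T, (univ.filter fun i => 0 < t i).card =
      ∑ i, (T.filter fun t => 0 < t i).card := by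
    simp only [card_filter]
    exact sum_comm
  have h4 := markov T (fun t => (univ.filter fun i => 0 < t i).card)
    (fun t => 2 ≤ (univ.filter fun i => 0 < t i).card) 2 fun _ _ h => h
  have h5 : (T.filter fun t => ¬ 2 ≤ (univ.filter fun i => 0 < t i).card).card ≤
      Fintype.card ι * (c + 1) := by
    rw [← card_univ, ← card_range (c + 1), ← card_product]
    refine le_trans (card_le_card fun t h => ?_)
      (card_image_le (f := fun q : ι × ℕ => (Pi.single q.1 q.2 : ι → ℕ)))
    obtain ⟨a1, a2⟩ := mem_filter.1 h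
    obtain ⟨i, hi⟩ := card_le_one_iff_subset_singleton.1 (Nat.lt_succ_iff.1 (not_le.1 a2))
    refine mem_image.2 ⟨(i, t i), by simpa using Nat.lt_succ_iff.2 (hc t a1 i), ?_⟩
    funext j
    by_cases hj : j = i
    · subst hj; simp
    · have : ¬ 0 < t j := fun d => hj (mem_singleton.1 (hi (mem_filter.2 ⟨mem_univ _, d⟩)))
      simp only [Pi.single_eq_of_ne hj]
      omega
  have h6 := card_filter_add_card_filter_not (s := T)
    fun t => 2 ≤ (univ.filter fun i => 0 < t i).card
  omega

omit [DecidableEq ι] in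
lemma exists_median (g : ι → ℕ) : ∃ s, Fintype.card ι ≤ 2 * (univ.filter fun i => g i ≤ s).card ∧
    Fintype.card ι ≤ 2 * (univ.filter fun i => s ≤ g i).card := by
  classical
  have h : ∃ s, Fintype.card ι ≤ 2 * (univ.filter fun i => g i ≤ s).card :=
    ⟨univ.sup g, by
      rw [filter_true_of_mem fun i hi => le_sup (f := g) hi, card_univ]
      omega⟩
  refine ⟨Nat.find h, Nat.find_spec h, ?_⟩
  rcases hs : Nat.find h with _ | s
  · rw [filter_true_of_mem fun i _ => Nat.zero_le _, card_univ]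
    omega
  · have h1 := Nat.find_min h (m := s) (by omega)
    have h2 := card_filter_add_card_filter_not (s := (univ : Finset ι)) fun i => g i ≤ s
    simp only [not_le, card_univ] at h2
    simp only [Nat.succ_le_iff]
    omega

end Pool.Agent.MP_96f5a9_co.H93

end MrgPart1

-- marker of a merged file
example : 731051 + 387075 = 731051 + 387075 := rfl
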