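import Pool.Agent.MP_96f5a9_co.h93.Soft

/-!
Wilf's inequality for an order ideal whose depth is at least linear in the number of variables.
-/

set_option autoImplicit false

namespace Pool.Agent.MP_96f5a9_co.H93

open Finset Function H51 H16

lemma arith_a {p m M Rt Sl Tl N s y : ℕ} (hp : 4095 ≤ p) (hm : 0 < m)
    (hM : 2 ^ 26 * ((p + 1) * m) ≤ M) (hR : (p + 1) * Rt = m * M + Sl)
    (hS : Sl ≤ 2 * (p * (m * m))) (hy : 4 * m * y ≤ Rt) (hs : p * s ≤ 32 * M) (hT : Rt ≤ 2 * Tl)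
    (ht : p * Tl ≤ 2 * Sl + p * (N * (2 * y + s)) + 2 * (M * N)) : m ≤ 71 * N := by
  have h0 : 2 ^ 26 * (p * (m * m)) ≤ m * M := by nlinarith
  have h1 : p * (2 * y) ≤ M := by
    refine Nat.le_of_mul_le_mul_left (c := 2 * m) ?_ (by omega)
    nlinarith [Nat.mul_le_mul_left p hy]
  have h2 : p * (N * (2 * y + s)) ≤ 33 * (M * N) := by
    have : p * (N * (2 * y + s)) = (p * (2 * y) + p * s) * N := by ring
    rw [this, ← mul_assoc 33]
    exact Nat.mul_le_mul_right _ (by omega)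
  have h3 : p * Rt ≤ 2 * (p * Tl) := by nlinarith
  have h4 : 4095 * ((p + 1) * Rt) ≤ 4096 * (p * Rt) := by nlinarith
  have hM0 : 0 < M := lt_of_lt_of_le (by positivity) hM
  refine Nat.le_of_mul_le_mul_left (c := M) ?_ hM0
  have : M * (71 * N) = 71 * (M * N) := by ring
  rw [this, mul_comm M m]
  omega

lemma arith_a2 {p m N Z D u : ℕ} (hp : 4095 ≤ p) (hm : 0 < m) (h1 : m ≤ 71 * N)
    (h2 : p * N ≤ 10 * Z + p / 2 * N) (h3 : Z ^ 2 ≤ m * (Z + 2 * (p * D))) (h4 : D * u ≤ p * m)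
    (h5 : 2 ^ 24 ≤ u) : False := by
  have a1 : 2 * (p / 2 * N) ≤ p * N := by
    rw [← mul_assoc]
    exact Nat.mul_le_mul_right _ (by omega)
  have a2 : p * m ≤ 1420 * Z := by nlinarith
  have a3 : 2 * m ≤ Z := by nlinarith
  have a4 : Z ^ 2 ≤ 4 * (p * m * D) := by nlinarith
  have a5 : (p * m) ^ 2 ≤ (1420 * Z) ^ 2 := Nat.pow_le_pow_left a2 2
  have a6 : 0 < p * m := by positivity
  have a7 : p * m ≤ 8065600 * D := by
    refine Nat.le_of_mul_le_mul_left (c := p * m) ?_ a6
    nlinarith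
  have a8 : D * 2 ^ 24 ≤ D * u := Nat.mul_le_mul_left _ h5
  omega

lemma arith_b {p m M Rt Sl Tl Lo N N' s y : ℕ} (hp : 0 < p) (hR : 2 ^ 26 * (m * m) ≤ Rt)
    (hS : Sl ≤ 2 * (p * (m * m))) (hs : 32 * M < p * s) (hT : Rt = Tl + Lo) (hl : Lo ≤ 4 * (m * m))
    (ht : p * Tl ≤ 2 * Sl + p * (N * (s + s)) + 2 * (M * N)) (hN : N ≤ N') (hy : s ≤ 4 * y) :
    Rt ≤ 9 * (N' * y) := by
  have h1 : 32 * (M * N) ≤ p * (N * s) := by nlinarith
  have h2 : 16 * Tl ≤ 64 * (m * m) + 33 * (N * s) := by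
    refine Nat.le_of_mul_le_mul_left (c := p) ?_ hp
    nlinarith
  have h3 : N * s ≤ N' * (4 * y) := Nat.mul_le_mul hN hy
  nlinarith

lemma arith_b2 {p m N Z D u A : ℕ} (hp : 0 < p) (hm : 0 < m) (h1 : 9 * m ≤ 5 * (p * N))
    (h2 : p * N ≤ 1 * Z + p / 4 * N) (h3 : Z ^ 2 ≤ m * (Z + 2 * (p * D))) (h4 : D * u ≤ A)
    (h5 : A ≤ 2 * (p * N)) : 9 * (N * u) ≤ 256 * m := by
  have a1 : 4 * (p / 4 * N) ≤ p * N := by
    rw [← mul_assoc]
    exact Nat.mul_le_mul_right _ (by omega)
  have a2 : 3 * (p * N) ≤ 4 * Z := by omega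
  have a3 : 27 * m ≤ 20 * Z := by omega
  have a4 : Z ^ 2 ≤ 8 * (p * m * D) := by nlinarith
  have a5 : (3 * (p * N)) ^ 2 ≤ (4 * Z) ^ 2 := Nat.pow_le_pow_left a2 2
  have a6 : 0 < p * (p * N) := Nat.mul_pos hp (by omega)
  have a7 : 9 * (p * N) ^ 2 ≤ 128 * (p * m * D) := by nlinarith
  have a8 : 9 * (p * N) ^ 2 * u ≤ 128 * (p * m * D) * u := Nat.mul_le_mul_right _ a7
  have a9 : p * m * (D * u) ≤ p * m * (2 * (p * N)) := Nat.mul_le_mul_left _ (h4.trans h5)
  refine Nat.le_of_mul_le_mul_left (c := p * (p * N)) ?_ a6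
  nlinarith

variable {ι : Type} [Fintype ι] [DecidableEq ι]

theorem core (g : ι → ℕ) (T : Finset (ι → ℕ)) (m M : ℕ) (hm : 0 < m) (hg : ∀ i, 0 < g i)
    (hT : ∀ x ∈ T, ∀ y, y ≤ x → y ∈ T) (hcard : T.card = m)
    (hinj : ∀ x ∈ T, ∀ y ∈ T, wt g x ≡ wt g y [MOD m] → x = y) (hM : ∀ x ∈ T, wt g x ≤ M)
    (hp : 4095 ≤ Fintype.card ι) (hm4 : 4 * Fintype.card ι ^ 2 ≤ m)
    (hbig : 2 ^ 26 * ((Fintype.card ι + 1) * m) ≤ M)
    (hR : (Fintype.card ι + 1) * ∑ t ∈ T, (M - wt g t) = m * M + ∑ i, ∑ t ∈ T, gp g T M i t) :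
    ∑ i, (T.filter fun t => t + ee i ∈ T).card ≤ ∑ i, ∑ t ∈ T, gp g T M i t / m := by
  by_contra hA
  rw [not_le] at hA
  have : Nonempty ι := Fintype.card_pos_iff.1 (by omega)
  set p := Fintype.card ι with hpdef
  set A := ∑ i, ∑ t ∈ T, gp g T M i t / m with hAdef
  set Lv := ∑ i, (T.filter fun t => t + ee i ∈ T).card with hLv
  set Sl := ∑ i, ∑ t ∈ T, gp g T M i t with hSl
  set Rt := ∑ t ∈ T, (M - wt g t) with hRt
  have hp0 : 0 < p := by omega
  have hL : Lv ≤ p * m := by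
    rw [hpdef, ← card_univ, ← smul_eq_mul, ← sum_const]
    exact sum_le_sum fun i _ => hcard ▸ card_filter_le _ _
  have hS : Sl ≤ 2 * (p * (m * m)) := by
    have h1 := sum_le_sum fun i (_ : i ∈ (univ : Finset ι)) => gp_le (g := g) (M := M) hm hcard i
    rw [sum_add_distrib, ← mul_sum, sum_const, card_univ, smul_eq_mul] at h1
    have h2 : m * A ≤ m * (p * m) := Nat.mul_le_mul_left _ (by omega)
    nlinarith
  have hR1 : 2 ^ 26 * (m * m) ≤ Rt := by
    refine Nat.le_of_mul_le_mul_left (c := p + 1) ?_ (by omega)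
    nlinarith [Nat.mul_le_mul_left m hbig]
  have hsplit : ∀ x, Rt = ∑ t ∈ deep g T M x, (M - wt g t) +
      ∑ t ∈ T.filter (fun t => ¬ x ≤ M - wt g t), (M - wt g t) := fun x =>
    (sum_filter_add_sum_filter_not _ _ _).symm
  have hdead : ∀ x y, 2 * y ≤ x → (∑ k, ((deep g T M x).filter fun t =>
      t + Pi.single k (y / g k + 1) ∉ T).card) * (y / m) ≤ A := fun x y h => by
    rw [sum_mul]
    exact sum_le_sum fun k _ => dead_cost hT hM h k
  have hXM : ∀ x, ∀ t ∈ deep g T M x, wt g t ≤ M := fun x t h => hM t (mem_filter.1 h).1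
  obtain ⟨s, hs1, hs2⟩ := exists_median g
  rcases le_or_gt (p * s) (32 * M) with hs | hs
  · set y := Rt / (4 * m) with hy
    have y1 : 4 * m * y ≤ Rt := Nat.mul_div_le _ _
    have y2 : Rt < 4 * m * (y + 1) := Nat.lt_mul_div_succ _ (by omega)
    have y3 : 2 ^ 24 * m ≤ y := by
      rw [hy, Nat.le_div_iff_mul_le (by omega)]
      nlinarith
    have h1 : ∑ t ∈ T.filter (fun t => ¬ 2 * y ≤ M - wt g t), (M - wt g t) ≤ m * (2 * y) := by
      calc _ ≤ ∑ _t ∈ T.filter (fun t => ¬ 2 * y ≤ M - wt g t), 2 * y :=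
            sum_le_sum fun t h => (not_le.1 (mem_filter.1 h).2).le
        _ ≤ ∑ _t ∈ T, 2 * y := sum_le_sum_of_subset (filter_subset _ _)
        _ = _ := by simp [hcard]
    have h2 := hsplit (2 * y)
    have h3 := arith_a hp hm hbig hR hS y1 hs (by nlinarith) (tail hT hM (2 * y) s hs1)
    have h4 : M ≤ p / 2 * (10 * y) := by
      have a1 : M ≤ 4 * ((p + 1) * (y + 1)) := by
        refine Nat.le_of_mul_le_mul_left (c := m) ?_ hm
        nlinarith [Nat.mul_le_mul_left (p + 1) y2.le]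
      obtain ⟨k, hk⟩ : ∃ k, p / 2 = k + 9 := ⟨p / 2 - 9, by omega⟩
      obtain ⟨z, hz⟩ : ∃ z, y = z + 8 := ⟨y - 8, by omega⟩
      have a2 : (p + 1) * (y + 1) ≤ (2 * k + 20) * (y + 1) := Nat.mul_le_mul_right _ (by omega)
      have a3 : 40 * z ≤ k * z := Nat.mul_le_mul_right _ (by omega)
      rw [hk]
      nlinarith
    exact arith_a2 hp hm h3 (small_coord hg (deep_ideal hT _) (hXM _) (by omega) (by omega) h4)
      (soft_packing g T _ m hm hinj (fun j => y / g j + 1) (filter_subset _ _))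
      ((hdead _ y le_rfl).trans (by omega)) ((Nat.le_div_iff_mul_le hm).2 y3)
  · set y := s / 3 with hy
    have s1 : 2 ^ 31 * m ≤ s := by
      refine Nat.le_of_mul_le_mul_left (c := p) ?_ hp0
      nlinarith
    set N := (deep g T M y).card with hN
    have h1 : ∑ t ∈ T.filter (fun t => ¬ s ≤ M - wt g t), (M - wt g t) ≤ 4 * (m * m) := by
      refine Nat.le_of_mul_le_mul_left (c := p) ?_ hp0
      have := low hT hM s hs2
      nlinarith
    have h2 : Rt ≤ 9 * (N * y) := arith_b hp0 hR1 hS hs (hsplit s) h1 (tail hT hM s s hs1)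
      (card_le_card fun t h => mem_filter.2 ⟨(mem_filter.1 h).1, by
        have := (mem_filter.1 h).2
        omega⟩) (by omega)
    have h3 : ∀ i, g i ≤ y → 100 * m ≤ ∑ t ∈ T, gp g T M i t / m := by
      intro i hi
      have a1 := window hT hM (y := y) (by omega) 18 (hg i) hi
      have a2 : (T.filter fun t => y ≤ M - wt g t ∧ M - wt g t < 3 * y).card * y ≤ 4 * (m * m) := by
        refine le_trans ?_ h1
        rw [← smul_eq_mul, ← sum_const]
        refine (sum_le_sum fun t h => (mem_filter.1 h).2.1).trans (sum_le_sum_of_subset fun t h => ?_)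
        have := (mem_filter.1 h).2.2
        exact mem_filter.2 ⟨(mem_filter.1 h).1, by omega⟩
      have a3 : (deep g T M (18 * y)).card * (18 * y) ≤ Rt := markov T _ _ _ fun _ _ h => h
      have a4 := markov T (fun t => gp g T M i t / m) (fun t => y ≤ gp g T M i t) (y / m)
        fun _ _ h => Nat.div_le_div_right h
      have a5 : y ≤ 2 * m * (y / m) := by
        have b1 := Nat.lt_mul_div_succ y hm
        have b2 : 1 ≤ y / m := Nat.div_pos (by omega) hm
        nlinarith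
      set G := (T.filter fun t => y ≤ gp g T M i t).card
      have a6 : G * y ≤ 2 * m * ∑ t ∈ T, gp g T M i t / m := by
        calc G * y ≤ G * (2 * m * (y / m)) := Nat.mul_le_mul_left _ a5
          _ = 2 * m * (G * (y / m)) := by ring
          _ ≤ _ := Nat.mul_le_mul_left _ a4
      have a7 := Nat.mul_le_mul_right y a1
      refine Nat.le_of_mul_le_mul_left (c := 36 * m) ?_ (by omega)
      nlinarith
    set f := (univ.filter fun i => g i ≤ y).card with hf
    have h4 : 100 * (f * m) ≤ A := by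
      calc 100 * (f * m) = ∑ _i ∈ univ.filter (fun i => g i ≤ y), 100 * m := by
            rw [sum_const, smul_eq_mul]; ring
        _ ≤ ∑ i ∈ univ.filter (fun i => g i ≤ y), ∑ t ∈ T, gp g T M i t / m :=
            sum_le_sum fun i hi => h3 i (mem_filter.1 hi).2
        _ ≤ A := sum_le_sum_of_subset (subset_univ _)
    have h5 : Lv ≤ f * m + p * N := by
      calc Lv ≤ ∑ i, ((if g i ≤ y then 1 else 0) * m + N) := by
            refine sum_le_sum fun i _ => ?_
            split_ifs with c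
            · have := card_filter_le T fun t => t + ee i ∈ T
              omega
            · have := live_le (T := T) hM (not_le.1 c).le
              omega
        _ = _ := by
            rw [sum_add_distrib, ← sum_mul, ← card_filter, sum_const, card_univ, smul_eq_mul]
    have h6 : M ≤ p / 4 * (1 * (y / 2)) := by
      have a1 : p * s ≤ p * (7 * (y / 2)) := Nat.mul_le_mul_left _ (by omega)
      have a2 : 7 * p * (y / 2) ≤ 32 * (p / 4) * (y / 2) := Nat.mul_le_mul_right _ (by omega)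
      nlinarith
    rcases le_or_gt (9 * m) (5 * (p * N)) with c | c
    · have a1 := arith_b2 hp0 hm c
        (small_coord hg (deep_ideal hT _) (hXM _) (by omega) (by omega) h6)
        (soft_packing g T _ m hm hinj (fun j => y / 2 / g j + 1) (filter_subset _ _))
        (hdead y (y / 2) (by omega)) (by omega)
      have a2 : y ≤ 4 * m * (y / 2 / m) := by
        have b1 := Nat.lt_mul_div_succ (y / 2) hm
        have b2 : 1 ≤ y / 2 / m := Nat.div_pos (by omega) hm
        have b3 : y ≤ 2 * (y / 2) + 1 := by omega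
        nlinarith
      have a3 := Nat.mul_le_mul_left N a2
      have a4 := Nat.mul_le_mul_left (4 * m) a1
      have a5 : 0 < m * m := by positivity
      nlinarith
    · have a1 : f = 0 := by
        by_contra d
        have : 1 * m ≤ f * m := Nat.mul_le_mul_right _ (by omega)
        omega
      have a2 : ∀ t ∈ T, ∀ i, t i ≤ p / 4 := by
        intro t ht' i
        have b1 : ¬ g i ≤ y := filter_eq_empty_iff.1 (card_eq_zero.1 a1) (mem_univ i)
        refine Nat.le_of_mul_le_mul_right (c := g i) ?_ (hg i)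
        exact (coord_le_wt g t i).trans ((hM t ht').trans
          (h6.trans (Nat.mul_le_mul_left _ (by omega))))
      have a3 := live_ge hT a2
      have a4 : p * (10 * (p / 4 + 1)) ≤ p * (4 * p) := Nat.mul_le_mul_left _ (by omega)
      rw [a1] at h5
      rw [hcard] at a3
      nlinarith

/-- The abstract Wilf inequality at linear depth. -/
theorem wilf_ideal (g : ι → ℕ) (T : Finset (ι → ℕ)) (m F : ℕ) (hm : 0 < m) (hg : ∀ i, 0 < g i)
    (hT : ∀ x ∈ T, ∀ y, y ≤ x → y ∈ T) (hcard : T.card = m)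
    (hinj : ∀ x ∈ T, ∀ y ∈ T, wt g x ≡ wt g y [MOD m] → x = y) (hM : ∀ x ∈ T, wt g x ≤ F + m)
    (hp : 4095 ≤ Fintype.card ι) (hm4 : 4 * Fintype.card ι ^ 2 ≤ m)
    (hbig : 2 ^ 26 * ((Fintype.card ι + 1) * m) ≤ F + m) :
    F + 1 ≤ (Fintype.card ι + 1) * ∑ x ∈ T, (F + m - wt g x) / m := by
  set k := Fintype.card ι with hk
  set M := F + m with hMdef
  set n := ∑ x ∈ T, (M - wt g x) / m with hn
  set R := ∑ x ∈ T, (M - wt g x) % m with hR
  set P := ∑ x ∈ T, wt g x with hP
  set Sl := ∑ i, ∑ t ∈ T, gp g T M i t with hSl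
  set Rt := ∑ x ∈ T, (M - wt g x) with hRt
  have h0 : m * n + R = Rt := by
    rw [hn, hR, mul_sum, ← sum_add_distrib]
    exact sum_congr rfl fun x _ => Nat.div_add_mod _ _
  have h1 : Rt + P = m * M := by
    rw [hRt, hP, ← sum_add_distrib, ← hcard, ← smul_eq_mul, ← sum_const]
    exact sum_congr rfl fun x hx => Nat.sub_add_cancel (hM x hx)
  have h2 : Sl + (k + 1) * P = k * (m * M) := by
    rw [hP, hk, ← sum_wt_top g hT, hSl, sum_comm, ← sum_add_distrib]
    calc _ = ∑ _x ∈ T, ∑ _i : ι, M := by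
          refine sum_congr rfl fun x hx => ?_
          rw [← sum_add_distrib]
          exact sum_congr rfl fun i _ => Nat.sub_add_cancel (hM _ (top_mem i hx))
      _ = _ := by simp [hcard]; ring
  have h3 : R * 2 ≤ m * (m - 1) := by
    refine sum_mod_le T m hm _ fun x hx y hy h => hinj x hx y hy ?_
    have h4 : (M - wt g x) + wt g x ≡ (M - wt g y) + wt g y [MOD m] := by
      rw [Nat.sub_add_cancel (hM x hx), Nat.sub_add_cancel (hM y hy)]
    exact Nat.ModEq.add_left_cancel h h4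
  have h4 : (k + 1) * Rt = m * M + Sl := by nlinarith
  have h5 := Nat.mul_le_mul_left m (core g T m M hm hg hT hcard hinj hM hp hm4 hbig h4)
  have h6 := sum_le_sum fun i (_ : i ∈ (univ : Finset ι)) => crude (g := g) (M := M) hm hT i
  rw [sum_add_distrib, sum_add_distrib, ← mul_sum, ← mul_sum, sum_const, card_univ, smul_eq_mul]
    at h6
  rw [← hk, ← hR, ← hSl] at h6
  have h7 : k * R ≤ Sl := by omega
  refine Nat.le_of_mul_le_mul_left ?_ hm
  obtain ⟨m', rfl⟩ : ∃ m', m = m' + 1 := ⟨m - 1, by omega⟩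
  rw [Nat.add_sub_cancel] at h3
  nlinarith

end Pool.Agent.MP_96f5a9_co.H93
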