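import Mathlib.Analysis.SpecificLimits.Basic
import Pool.Agent.MP_96f5a9_co.h93.Linear

/-!
From a numerical semigroup to its order ideal, and Wilf's inequality at linear depth.
-/

set_option autoImplicit false

namespace Pool.Agent.MP_96f5a9_co.H93

open Finset Function H51 H16

/-- A set of exponent vectors of degree linear in the number of variables has exponential size. -/
lemma card_lt {ι : Type} [Fintype ι] [DecidableEq ι] (T : Finset (ι → ℕ))
    (h : ∀ t ∈ T, ∑ i, t i ≤ 2 ^ 26 * (Fintype.card ι + 1)) :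
    T.card < 2 ^ (28 * (Fintype.card ι + 1)) := by
  set p := Fintype.card ι with hp
  set K := 2 ^ 26 * (p + 1) + 1
  let ρ : ℝ := 1 + -(1 / 2 ^ 26)
  have r0 : 0 ≤ ρ := by norm_num [ρ]
  have r1 : ρ < 1 := by norm_num [ρ]
  have h1 : (1 / 2 : ℝ) ≤ ρ ^ 2 ^ 25 :=
    le_trans (by norm_num) (one_add_mul_le_pow (a := -(1 / 2 ^ 26 : ℝ)) (by norm_num) (2 ^ 25))
  have h2 : ∑ k ∈ range K, ρ ^ k ≤ 2 ^ 26 := by
    refine ((summable_geometric_of_lt_one r0 r1).sum_le_tsum _ fun _ _ => by positivity).trans ?_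
    rw [tsum_geometric_of_lt_one r0 r1]
    norm_num [ρ]
  have h3 : ∀ t ∈ T, (1 / 2 : ℝ) ^ (2 * (p + 1)) ≤ ∏ i, ρ ^ t i := by
    intro t ht'
    rw [prod_pow_eq_pow_sum]
    calc (1 / 2 : ℝ) ^ (2 * (p + 1)) ≤ (ρ ^ 2 ^ 25) ^ (2 * (p + 1)) :=
          pow_le_pow_left₀ (by norm_num) h1 _
      _ = ρ ^ (2 ^ 26 * (p + 1)) := by rw [← pow_mul]; congr 1; ring
      _ ≤ _ := pow_le_pow_of_le_one r0 r1.le (h t ht')
  have h4 : (T.card : ℝ) * (1 / 2) ^ (2 * (p + 1)) ≤ (2 ^ 26) ^ p := by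
    calc _ = ∑ _t ∈ T, (1 / 2 : ℝ) ^ (2 * (p + 1)) := by rw [sum_const, nsmul_eq_mul]
      _ ≤ ∑ t ∈ T, ∏ i, ρ ^ t i := sum_le_sum h3
      _ ≤ ∑ t ∈ Fintype.piFinset (fun _ : ι => range K), ∏ i, ρ ^ t i := by
          refine sum_le_sum_of_subset_of_nonneg (fun t ht' => ?_) fun _ _ _ => by positivity
          refine Fintype.mem_piFinset.2 fun i => mem_range.2 (Nat.lt_succ_of_le ?_)
          exact (single_le_sum (fun _ _ => Nat.zero_le _) (mem_univ i)).trans (h t ht')
      _ = ∏ _i : ι, ∑ k ∈ range K, ρ ^ k := (prod_univ_sum _ fun _ k => ρ ^ k).symm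
      _ ≤ _ := by
          rw [prod_const, card_univ]
          exact pow_le_pow_left₀ (by positivity) h2 _
  rw [one_div, inv_pow, ← div_eq_mul_inv, div_le_iff₀ (by positivity), ← pow_mul, ← pow_add] at h4
  have h5 : T.card ≤ 2 ^ (26 * p + 2 * (p + 1)) := by exact_mod_cast h4
  exact h5.trans_lt (Nat.pow_lt_pow_right (by omega) (by omega))

open Classical in
/-- The order ideal of least factorizations of the Apery elements. -/
lemma exists_model (S : AddSubmonoid ℕ) (F m : ℕ) (hF : ∀ x, F < x → x ∈ S) (hm0 : 0 < m)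
    (hmS : m ∈ S) (hmin : ∀ x ∈ S, x ≠ 0 → m ≤ x) :
    ∃ (G : Finset ℕ) (g : G → ℕ) (T : Finset (G → ℕ)), (gens S).ncard = Fintype.card G + 1 ∧
      (∀ i, m ≤ g i) ∧ (∀ x ∈ T, ∀ y, y ≤ x → y ∈ T) ∧ T.card = m ∧
      (∀ x ∈ T, ∀ y ∈ T, wt g x ≡ wt g y [MOD m] → x = y) ∧ (∀ x ∈ T, wt g x ≤ F + m) ∧
      ∑ x ∈ T, (F + m - wt g x) / m ≤ ((range (F + 1)).filter (· ∈ S)).card := by
  have hfin := gens_finite S F hF
  have hmg : m ∈ gens S := by
    refine ⟨hmS, hm0.ne', fun a ha b hb hab => ?_⟩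
    by_contra hne
    push Not at hne
    have := hmin a ha hne.1
    have := hmin b hb hne.2
    omega
  let G : Finset ℕ := hfin.toFinset.erase m
  have hG : ∀ x, x ∈ G ↔ x ≠ m ∧ x ∈ gens S := fun x => by simp [G]
  have he : (gens S).ncard = Fintype.card G + 1 := by
    rw [Set.ncard_eq_toFinset_card _ hfin, Fintype.card_coe, card_erase_add_one]
    simpa using hmg
  let g : G → ℕ := fun i => i.1
  have hg : ∀ i, g i ∈ gens S := fun i => ((hG _).1 i.2).2
  have hmul : ∀ k, k * m ∈ S := fun k => by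
    rw [← smul_eq_mul]
    exact S.nsmul_mem hmS _
  have hwt : ∀ x, wt g x ∈ S := fun x =>
    S.sum_mem fun i _ => by
      rw [← smul_eq_mul]
      exact S.nsmul_mem (hg i).1 _
  have hrepr : ∀ s ∈ S, ∃ y t, s = wt g y + t * m := by
    intro s hs
    obtain ⟨l, hl, rfl⟩ := exists_fact S s hs
    clear hs
    induction l using Multiset.induction_on with
    | empty => exact ⟨0, 0, by simp [wt]⟩
    | cons a l ih =>
      obtain ⟨y, t, h⟩ := ih fun b hb => hl b (Multiset.mem_cons_of_mem hb)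
      have ha := hl a (Multiset.mem_cons_self _ _)
      rw [Multiset.sum_cons, h]
      by_cases ham : a = m
      · exact ⟨y, t + 1, by rw [ham]; ring⟩
      · refine ⟨y + ee ⟨a, (hG a).2 ⟨ham, ha⟩⟩, t, ?_⟩
        rw [wt_ee]
        simp only [g]
        ring
  obtain ⟨T, hT, hinj, hsurj, -⟩ := H16.exists_ideal g m hm0
  refine ⟨G, g, T, he, fun i => hmin _ (hg i).1 (hg i).2.1, hT, ?_, hinj, ?_, ?_⟩
  · have h1 : T.image (fun x => wt g x % m) = range m := by
      ext r
      simp only [mem_image, mem_range]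
      constructor
      · rintro ⟨x, -, rfl⟩
        exact Nat.mod_lt _ hm0
      · intro hr
        have h2 : F + 1 ≤ (F + 1) * m := Nat.le_mul_of_pos_right _ hm0
        obtain ⟨y, t, h⟩ := hrepr (r + (F + 1) * m) (hF _ (by omega))
        obtain ⟨x, hx, h3, -⟩ := hsurj y
        refine ⟨x, hx, ?_⟩
        have h4 := congrArg (· % m) h
        simp only [Nat.add_mul_mod_self_right, Nat.mod_eq_of_lt hr] at h4
        rw [h4]
        exact h3
    rw [← card_image_of_injOn (f := fun x => wt g x % m) fun x hx y hy h => hinj x hx y hy h, h1,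
      card_range]
  · intro x hx
    by_contra hne
    obtain ⟨y, t, h⟩ := hrepr (wt g x - m) (hF _ (by omega))
    obtain ⟨z, hz, h3, h4⟩ := hsurj y
    have h5 : wt g x = wt g y + (t + 1) * m := by rw [add_mul]; omega
    have h6 : wt g z ≡ wt g x [MOD m] := by
      rw [h5]
      unfold Nat.ModEq at h3 ⊢
      rw [Nat.add_mul_mod_self_right]
      exact h3
    have h7 := hinj z hz x hx h6
    rw [h7] at h4
    omega
  · have h1 : ∑ x ∈ T, (F + m - wt g x) / m =
        (T.sigma fun x => range ((F + m - wt g x) / m)).card := by simp [card_sigma]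
    rw [h1]
    refine card_le_card_of_injOn (fun p => wt g p.1 + p.2 * m) ?_ ?_
    · rintro ⟨x, t⟩ hp
      simp only [coe_sigma, Set.mem_sigma_iff, mem_coe, mem_range] at hp
      simp only [coe_filter, mem_range, Set.mem_ofPred_eq]
      refine ⟨?_, S.add_mem (hwt x) (hmul _)⟩
      have h2 : (t + 1) * m ≤ F + m - wt g x := (Nat.le_div_iff_mul_le hm0).1 hp.2
      rw [add_mul] at h2
      omega
    · rintro ⟨x, t⟩ hp ⟨y, t'⟩ hp' h
      simp only [coe_sigma, Set.mem_sigma_iff, mem_coe, mem_range] at hp hp'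
      simp only at h
      have h2 : x = y := by
        refine hinj x hp.1 y hp'.1 ?_
        have h3 := congrArg (· % m) h
        simp only [Nat.add_mul_mod_self_right] at h3
        exact h3
      subst h2
      have h3 : t = t' := Nat.eq_of_mul_eq_mul_right hm0 (by omega)
      subst h3
      rfl

open Classical in
/-- Wilf's inequality for depth linear in the embedding dimension, or multiplicity exponential
in it. -/
theorem wilf_linear (S : AddSubmonoid ℕ) (F m : ℕ) (hF : ∀ x, F < x → x ∈ S) (hm0 : 0 < m)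
    (hmS : m ∈ S) (hmin : ∀ x ∈ S, x ≠ 0 → m ≤ x) (he : 2 ^ 12 ≤ (gens S).ncard)
    (hbig : 2 ^ 26 * (gens S).ncard * m ≤ F ∨ 2 ^ (28 * (gens S).ncard) ≤ m) :
    F + 1 ≤ (gens S).ncard * ((range (F + 1)).filter (· ∈ S)).card := by
  rcases le_or_gt (172 * m) ((gens S).ncard ^ 3) with c | c
  · exact wilf_cubic S F m _ hF hm0 hmS hmin rfl (Or.inr (Or.inr c))
  obtain ⟨G, g, T, h1, h2, h3, h4, h5, h6, h7⟩ := exists_model S F m hF hm0 hmS hmin
  rw [h1] at he hbig c ⊢
  refine (wilf_ideal g T m F hm0 (fun i => hm0.trans_le (h2 i)) h3 h4 h5 h6 (by omega) ?_ ?_).trans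
    (Nat.mul_le_mul_left _ h7)
  · have a1 : 2 ^ 12 * Fintype.card G ^ 2 ≤ (Fintype.card G + 1) ^ 3 := by
      rw [pow_succ' _ 2]
      exact Nat.mul_le_mul he (Nat.pow_le_pow_left (by omega) _)
    omega
  · rcases hbig with h | h
    · rw [mul_assoc] at h
      omega
    by_contra d
    refine absurd h (not_le.2 (h4 ▸ card_lt T fun t ht' => ?_))
    refine Nat.le_of_mul_le_mul_right (c := m) ?_ hm0
    have a1 : (∑ i, t i) * m ≤ wt g t := by
      rw [sum_mul]
      exact sum_le_sum fun i _ => Nat.mul_le_mul_left _ (h2 i)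
    have a2 := h6 t ht'
    rw [mul_assoc]
    omega

end Pool.Agent.MP_96f5a9_co.H93
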